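import Pool.Agent.Helper20.RG.St1

/-!
# MP_cb927e_an, project RG, module MEA: the box measure and the segment measure
-/

set_option autoImplicit false

open MeasureTheory Set Filter Topology
open scoped ENNReal RealInnerProductSpace

namespace Pool.Agent.Helper23.RG

open Pool.Agent.Helper20.RG
open Pool.Agent.Helper68.LM (Pl BB Bd Av HL ft fm DQ)

lemma meas_pt (hPT : StPT) : Measurable (fun q : ℝ × ℝ => pt q.1 q.2) := hPT.2.2.2.2.1.measurable

/-- the Lebesgue measure of the plane is the image of the product measure -/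
lemma vol_eq (hPT : StPT) : (volume : Measure Pl) =
    ((volume : Measure ℝ).prod (volume : Measure ℝ)).map (fun q : ℝ × ℝ => pt q.1 q.2) := by
  refine Measure.ext fun A hA => ?_
  rw [Measure.map_apply (meas_pt hPT) hA, Measure.prod_apply ((meas_pt hPT) hA)]
  have h1 := hPT.2.2.2.2.2.1 (A.indicator 1) (measurable_one.indicator hA)
  rw [lintegral_indicator_one hA] at h1
  rw [h1]
  refine lintegral_congr fun a => ?_
  have h2 : MeasurableSet (Prod.mk a ⁻¹' ((fun q : ℝ × ℝ => pt q.1 q.2) ⁻¹' A)) :=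
    measurable_prodMk_left ((meas_pt hPT) hA)
  rw [← lintegral_indicator_one h2]
  rfl

lemma sq_pre (hPT : StPT) : (fun q : ℝ × ℝ => pt q.1 q.2) ⁻¹' (Sq 0 (1 / 2)) =
    Icc (-(1 / 2) : ℝ) (1 / 2) ×ˢ Icc (-(1 / 2) : ℝ) (1 / 2) := by
  ext q
  have h0 := (hPT.1 q.1 q.2).1
  have h1 := (hPT.1 q.1 q.2).2
  simp only [mem_preimage, Sq, Set.mem_ofPred_eq, h0, h1, mem_prod, mem_Icc, PiLp.zero_apply, sub_zero,
    abs_le]

lemma bx_eq (hPT : StPT) : bx = (((volume : Measure ℝ).prod (volume : Measure ℝ)).restrict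
    (Icc (-(1 / 2) : ℝ) (1 / 2) ×ˢ Icc (-(1 / 2) : ℝ) (1 / 2))).map
      (fun q : ℝ × ℝ => pt q.1 q.2) := by
  have hm := (hPT.2.2.2.2.2.2.2 0 (1 / 2) (by norm_num)).1
  unfold bx
  rw [vol_eq hPT, Measure.restrict_map (meas_pt hPT) hm, sq_pre hPT]

lemma int_exp (hSINC : StSINC) (a : ℝ) :
    ∫ t in Icc (-(1 / 2) : ℝ) (1 / 2), Complex.exp (((-2 * Real.pi * a * t : ℝ) : ℂ) * Complex.I) =
    ((Real.sinc (Real.pi * a) : ℝ) : ℂ) := by
  rw [integral_Icc_eq_integral_Ioc, ← intervalIntegral.integral_of_le (by norm_num)]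
  exact hSINC.2.2 a

lemma cont_e (ξ : Pl) : Continuous (fun y : Pl =>
    Complex.exp (((-2 * Real.pi * ⟪y, ξ⟫ : ℝ) : ℂ) * Complex.I)) := by
  have h1 : Continuous (fun y : Pl => ⟪y, ξ⟫) := continuous_id.inner continuous_const
  exact Complex.continuous_exp.comp
    ((Complex.continuous_ofReal.comp (continuous_const.mul h1)).mul continuous_const)

lemma sg_cont (s : ℝ) : Continuous (fun t : ℝ => t • E s) := continuous_id.smul continuous_const

theorem hMEA (hPT : StPT) (hSINC : StSINC) : StMEA := by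
  have hsq := hPT.2.2.2.2.2.2.2 0 (1 / 2) (by norm_num)
  have hv : volume (Sq 0 (1 / 2)) = 1 := by
    rw [hsq.2]
    norm_num
  have hbu : bx univ = 1 := by
    unfold bx
    rw [Measure.restrict_apply_univ, hv]
  have hvI : volume (Icc (-(1 / 2) : ℝ) (1 / 2)) = 1 := by
    rw [Real.volume_Icc]
    norm_num
  have hsu : ∀ s : ℝ, sg s univ = 1 := by
    intro s
    unfold sg
    rw [Measure.map_apply (sg_cont s).measurable MeasurableSet.univ, preimage_univ,
      Measure.restrict_apply_univ, hvI]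
  have hball : MeasurableSet (Metric.closedBall (0 : Pl) 1)ᶜ :=
    Metric.isClosed_closedBall.measurableSet.compl
  refine ⟨⟨⟨?_, ?_⟩, hbu, ?_⟩, ?_, ?_⟩
  · unfold bx
    rw [Measure.restrict_apply hball]
    have : (Metric.closedBall (0 : Pl) 1)ᶜ ∩ Sq 0 (1 / 2) = ∅ := by
      rw [eq_empty_iff_forall_notMem]
      rintro x ⟨hx1, hx2⟩
      apply hx1
      have h3 := (hPT.2.2.1 x).2.2.1
      have h4 : |x 0| ≤ 1 / 2 ∧ |x 1| ≤ 1 / 2 := by
        simpa [Sq] using hx2
      rw [mem_closedBall_zero_iff]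
      linarith [h4.1, h4.2]
    rw [this, measure_empty]
  · rw [hbu]
    simp
  · intro ξ
    unfold fm
    rw [bx_eq hPT, integral_map (meas_pt hPT).aemeasurable (cont_e ξ).aestronglyMeasurable]
    have h5 : ∀ q : ℝ × ℝ, Complex.exp (((-2 * Real.pi * ⟪pt q.1 q.2, ξ⟫ : ℝ) : ℂ) * Complex.I) =
        Complex.exp (((-2 * Real.pi * ξ 0 * q.1 : ℝ) : ℂ) * Complex.I) *
          Complex.exp (((-2 * Real.pi * ξ 1 * q.2 : ℝ) : ℂ) * Complex.I) := by
      intro q
      rw [← Complex.exp_add, hPT.2.2.2.1, (hPT.1 q.1 q.2).1, (hPT.1 q.1 q.2).2]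
      congr 1
      push_cast
      ring
    simp only [h5]
    rw [setIntegral_prod_mul
      (fun t : ℝ => Complex.exp (((-2 * Real.pi * ξ 0 * t : ℝ) : ℂ) * Complex.I))
      (fun t : ℝ => Complex.exp (((-2 * Real.pi * ξ 1 * t : ℝ) : ℂ) * Complex.I)),
      int_exp hSINC, int_exp hSINC]
    push_cast
    rfl
  · intro s hs
    refine ⟨⟨?_, ?_⟩, hsu s⟩
    · unfold sg
      rw [Measure.map_apply (sg_cont s).measurable hball, Measure.restrict_apply
        ((sg_cont s).measurable hball)]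
      have : (fun t : ℝ => t • E s) ⁻¹' (Metric.closedBall (0 : Pl) 1)ᶜ ∩
          Icc (-(1 / 2) : ℝ) (1 / 2) = ∅ := by
        rw [eq_empty_iff_forall_notMem]
        rintro t ⟨ht1, ht2⟩
        apply ht1
        rw [mem_closedBall_zero_iff, norm_smul, Real.norm_eq_abs]
        have h6 : |t| ≤ 1 / 2 := abs_le.2 ht2
        have h7 : ‖E s‖ ≤ 2 := by
          have h8 := (hPT.2.2.1 (E s)).2.2.1
          have h9 : (E s) 0 = 1 := (hPT.1 1 s).1
          have h10 : (E s) 1 = s := (hPT.1 1 s).2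
          rw [h9, h10] at h8
          have h11 : |(1 : ℝ)| = 1 := abs_one
          linarith
        have h12 : 0 ≤ |t| := abs_nonneg t
        have h13 : 0 ≤ ‖E s‖ := norm_nonneg _
        nlinarith
      rw [this, measure_empty]
    · rw [hsu s]
      simp
  · intro s ξ
    unfold fm sg
    rw [integral_map (sg_cont s).measurable.aemeasurable (cont_e ξ).aestronglyMeasurable,
      ← int_exp hSINC]
    refine integral_congr_ae (Filter.Eventually.of_forall fun t => ?_)
    simp only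
    rw [real_inner_smul_left]
    congr 2
    push_cast
    ring

end Pool.Agent.Helper23.RG
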